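import Mathlib
import Pool.Agent.H282Z.MDefs
import Pool.Agent.H282Z.MFinal

set_option autoImplicit false

namespace Pool.Agent.Results.MP_719818_al.AStableGrowthGap

open Filter Topology Pool.Agent.H282Z.MG

/-- There is a right-angled Artin group `G`, on a finite graph which is not a join, which with its
standard generating set `S` is Morse local-to-global, is not virtually cyclic and contains a Morse
element, and in which the growth rates of all stable subgroups are at most a constant
`c < λ_S(G)`; in particular no sequence of infinite index stable subgroups has growth rates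
tending to `λ_S(G)`. -/
theorem result : ∃ (V : Type) (_ : Finite V) (Γ : SimpleGraph V), ¬ IsJoin Γ ∧
    (raagGens Γ).Finite ∧ Subgroup.closure (raagGens Γ) = ⊤ ∧
    MorseLocalToGlobal (raagGens Γ) ∧ ¬ VirtuallyCyclic (RAAG Γ) ∧
    (∃ g : RAAG Γ, IsMorseElement (raagGens Γ) g) ∧
    (∃ c : ℝ, c < growthRate (raagGens Γ) Set.univ ∧
      ∀ H : Subgroup (RAAG Γ), IsStable (raagGens Γ) H → growthRate (raagGens Γ) H ≤ c) ∧
    ¬ ∃ H : ℕ → Subgroup (RAAG Γ), (∀ i, ¬ (H i).FiniteIndex ∧ IsStable (raagGens Γ) (H i)) ∧
      Tendsto (fun i => growthRate (raagGens Γ) (H i)) atTop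
        (𝓝 (growthRate (raagGens Γ) Set.univ)) := by
  refine ⟨VV, inferInstance, GG, not_join, Set.finite_range _, hSS, mltg, not_vc,
    ⟨_, morse_elt⟩, ⟨170, by linarith [growth_top], fun H hH => growth_stable hH⟩, ?_⟩
  rintro ⟨H, h1, h2⟩
  have h3 := le_of_tendsto' h2 fun i => growth_stable (h1 i).2
  linarith [growth_top]

end Pool.Agent.Results.MP_719818_al.AStableGrowthGap
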